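import Pool.Agent.K.MP_eccc2e_al.C1

namespace Pool.Agent.Results.MP_eccc2e_al.DoubleTranspositions

/-- For `n ≥ 5`, a product of two disjoint transpositions in the alternating group `A_n` is
nonvanishing (no irreducible complex character is zero on it) exactly when `n` is one of
`7, 13, 16, 20, 22, 25, 31`. -/
theorem result (n : ℕ) (hn : 5 ≤ n) (x : alternatingGroup (Fin n))
    (hx : (x : Equiv.Perm (Fin n)).cycleType = {2, 2}) :
    (∀ (V : Type) [AddCommGroup V] [Module ℂ V] [FiniteDimensional ℂ V]
      (ρ : Representation ℂ (alternatingGroup (Fin n)) V), ρ.IsIrreducible → ρ.character x ≠ 0) ↔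
    (n = 7 ∨ n = 13 ∨ n = 16 ∨ n = 20 ∨ n = 22 ∨ n = 25 ∨ n = 31) := by
  have h := Pool.Agent.P.MP_eccc2e_al.four n hn x hx
  simp only [List.mem_cons, List.not_mem_nil, or_false] at h
  exact h

end Pool.Agent.Results.MP_eccc2e_al.DoubleTranspositions
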