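import Pool.Agent.P.MP_eccc2e_al.Crit

namespace Pool.Agent.Results.MP_eccc2e_al.InvolutionCriterion

/-- Suppose that every `w` for which `n - 2 * w` is a triangular number satisfies `2 ^ s ≤ w` and
`2 * v₂ (w / 2 ^ s) ≤ w % 2 ^ s`.  Then a product of `2 ^ s` disjoint transpositions in `A_n` is
nonvanishing: no irreducible complex character of `A_n` is zero on it. -/
theorem result (n s : ℕ)
    (h : ∀ w k : ℕ, 2 * n = 4 * w + k * (k + 1) →
      2 ^ s ≤ w ∧ 2 * padicValNat 2 (w / 2 ^ s) ≤ w % 2 ^ s)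
    (x : alternatingGroup (Fin n))
    (hx : (x : Equiv.Perm (Fin n)).cycleType = Multiset.replicate (2 ^ s) 2)
    (V : Type) [AddCommGroup V] [Module ℂ V] [FiniteDimensional ℂ V]
    (ρ : Representation ℂ (alternatingGroup (Fin n)) V) (hρ : ρ.IsIrreducible) :
    ρ.character x ≠ 0 :=
  Pool.Agent.P.MP_eccc2e_al.crit_alt h x hx V ρ hρ

end Pool.Agent.Results.MP_eccc2e_al.InvolutionCriterion
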