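import Pool.Agent.K.MP_eccc2e_al.C2

namespace Pool.Agent.Results.MP_eccc2e_al.PositiveDensity

/-- The set of `n ≥ 5` such that the alternating group `A_n` contains a nonvanishing involution
(an element of order two on which no irreducible complex character is zero) has positive lower
density. -/
theorem result : ∃ c : ℝ, 0 < c ∧ ∀ᶠ N : ℕ in Filter.atTop, c * N ≤
    ({n : ℕ | n ≤ N ∧ 5 ≤ n ∧ ∃ x : alternatingGroup (Fin n), orderOf x = 2 ∧
      ∀ (V : Type) [AddCommGroup V] [Module ℂ V] [FiniteDimensional ℂ V]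
        (ρ : Representation ℂ (alternatingGroup (Fin n)) V),
        ρ.IsIrreducible → ρ.character x ≠ 0}.ncard : ℝ) := by
  refine ⟨1 / 2 ^ 15, by norm_num, Filter.eventually_atTop.mpr ⟨2 ^ 221, fun N hN => ?_⟩⟩
  have h := Pool.Agent.P.MP_eccc2e_al.density N hN
  rw [one_div, inv_mul_le_iff₀ (by norm_num)]
  exact_mod_cast h

end Pool.Agent.Results.MP_eccc2e_al.PositiveDensity
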